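import Pool.Agent.Lib_helper52.YG.Defs

set_option autoImplicit false

namespace Pool.Agent.YG

open MeasureTheory ENNReal Set Filter Topology Pool.Agent.EPS

theorem s3_line {b : ℝ} (hb : 0 < b) :
    ∫⁻ x : ℝ, ENNReal.ofReal (Real.exp (-b * x ^ 2)) = ENNReal.ofReal (Real.sqrt (Real.pi / b)) := by
  rw [← integral_gaussian, ofReal_integral_eq_lintegral_ofReal (integrable_exp_neg_mul_sq hb)]
  exact Filter.Eventually.of_forall fun x => (Real.exp_pos _).le

/-- the Gaussian integral in the plane -/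
theorem gauss2 {c1 c2 c3 : ℝ} (h : Wt c1 c2 c3) :
    ∫⁻ p : ℝ × ℝ, ENNReal.ofReal (Real.exp (-(Real.pi * qf c1 c2 p.1 p.2))) =
      ENNReal.ofReal (1 / Real.sqrt ((1 - c1) * (1 - c2) * (1 - c3))) := by
  have hc1 := h.a1
  have hp1 : 0 < 1 - c1 := by linarith [h.b1]
  have hp2 : 0 < 1 - c2 := by linarith [h.b2]
  have hp3 : 0 < 1 - c3 := by linarith [h.b3]
  have hs : c3 = 2 - c1 - c2 := by linarith [h.sum]
  set P : ℝ := (1 - c1) * c1 with hP
  set Q : ℝ := (1 - c2) / c1 with hQ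
  set R : ℝ := (1 - c2) * (1 - c3) / c1 with hR
  have hP0 : 0 < P := by positivity
  have hR0 : 0 < R := by positivity
  have hq : ∀ u w : ℝ, -(Real.pi * qf c1 c2 u w) =
      -(Real.pi * P) * (u - Q * w) ^ 2 + -(Real.pi * R) * w ^ 2 := by
    intro u w
    rw [qf, hP, hQ, hR, hs]
    field_simp
    ring
  have hmeas : Measurable fun p : ℝ × ℝ =>
      ENNReal.ofReal (Real.exp (-(Real.pi * qf c1 c2 p.1 p.2))) := by
    unfold qf
    fun_prop
  rw [Measure.volume_eq_prod, lintegral_prod_symm _ hmeas.aemeasurable]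
  have hin : ∀ w : ℝ, ∫⁻ u : ℝ, ENNReal.ofReal (Real.exp (-(Real.pi * qf c1 c2 u w))) =
      ENNReal.ofReal (Real.sqrt (Real.pi / (Real.pi * P))) *
        ENNReal.ofReal (Real.exp (-(Real.pi * R) * w ^ 2)) := by
    intro w
    have e1 : ∀ u : ℝ, ENNReal.ofReal (Real.exp (-(Real.pi * qf c1 c2 u w))) =
        ENNReal.ofReal (Real.exp (-(Real.pi * P) * (u - Q * w) ^ 2)) *
          ENNReal.ofReal (Real.exp (-(Real.pi * R) * w ^ 2)) := by
      intro u
      rw [hq, Real.exp_add, ENNReal.ofReal_mul (Real.exp_pos _).le]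
    simp only [e1]
    rw [lintegral_mul_const _ (by fun_prop),
      lintegral_sub_right_eq_self (fun u : ℝ =>
        ENNReal.ofReal (Real.exp (-(Real.pi * P) * u ^ 2))) (Q * w),
      s3_line (mul_pos Real.pi_pos hP0)]
  simp only [hin]
  rw [lintegral_const_mul _ (by fun_prop), s3_line (mul_pos Real.pi_pos hR0),
    ← ENNReal.ofReal_mul (Real.sqrt_nonneg _), ← Real.sqrt_mul (by positivity)]
  congr 1
  rw [← Real.sqrt_one, ← Real.sqrt_div (by norm_num), Real.sqrt_one]
  congr 1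
  rw [hP, hR]
  have := Real.pi_pos.ne'
  field_simp

end Pool.Agent.YG
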